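import Pool.Agent.H95.ROW.Evr
import Pool.Agent.H57.AVG.C1s
import Pool.Agent.H77.ND.Two

/-!
# The rows of the target at the time zero, in a class

`row_one`: for one block of digits `P₁ .. P₂` with a row `RwC` (given the record of the window `w`, the
time and the context): off an event of small mass the digits of the constant of the own path of `c 3` in
the block are in a set of `exp (((1 - h) (P₂ - P₁) log 2 + δ + δ') J)` elements, which depends on the near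
data `xg` and the higher digits only. `row_cls`: finitely many blocks, the form of `Pool.ND54.nd_tup`.
-/

set_option autoImplicit false

namespace Pool.ROW95

open Finset Real MvPolynomial
open Pool.Agent.H49.Ent Pool.Agent.H32.Dense Pool.STK Pool.KA Pool.KSAT Pool.K2S Pool.PB Pool.GEN
open Pool.S6C Pool.RCD Pool.LA91 Pool.OWN68 Pool.CHT Pool.NDC42
open Pool.V0F (cR mx_cR)
open Pool.AVG57 (RwC)
open Pool.GRD (LbP)
open Pool.BFL (Pb)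
open Pool.STB (Pb_mono)

variable {m : ℕ}

/-- **The digits of an own height** are a quantity of the class. -/
theorem hq_jet {N : ℝ} {K D : ℕ} (hD : D ≤ K) (hK : |N| * Real.log 2 + 2 ≤ K) {J : ℕ}
    (hJ : 1 ≤ J) {F : Fam m J} {A : F.Ω → Prop} {c : ℕ → Fin m} {w e e₀ : ℝ} {p s : ℕ → ℝ} {l : ℕ}
    (hps : p l ≤ s l) (he : e ≤ e₀) {H : LnT F → ℕ → MvPolynomial (Option (Fin m)) ℝ}
    (h : ∃ (V : Type) (z : PtT F → V) (z' : LnT F → V) (G : V → MvPolynomial (Option (Fin m)) ℝ),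
      LbP F ((range l).image c) (c l) D J ⌊w * J⌋₊ ⌊(s l - e) * J⌋₊ A z z' G ∧
        ∀ x, G (z' x) = H x l) :
    (qJet m ((range l).image c) (c l) 0 w (p l) N).P K e₀ J F A (hgC F c w H l N) := by
  obtain ⟨V, z, z', G, h1, h2⟩ := h
  have hJ0 : (0 : ℝ) ≤ J := Nat.cast_nonneg J
  have hJ1 : (1 : ℝ) ≤ J := by exact_mod_cast hJ
  refine ⟨?_, V, z, z', G, h1.mono (Finset.Subset.refl _) hD (Nat.floor_le_floor
    (mul_le_mul_of_nonneg_right (by linarith) hJ0)), fun ω _ => ?_⟩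
  · have hb : ∀ ω, A ω → |(hgC F c w H l N ω : ℝ)| ≤ 2 * 2 ^ (|N| * J) := by
      intro ω hω
      have h3 := h1.pos ω hω
      rw [h2, ← Pool.OWN54.ojet_zero] at h3
      have h4 : |ojet F (c l) 0 (H (slam F ⌊w * J⌋₊ ω) l) ω| ≤ 1 := by
        refine h3.trans ?_
        rw [div_le_one (by positivity)]
        exact one_le_pow₀ one_le_two
      have h5 : (2 : ℝ) ^ (N * J) ≤ 2 ^ (|N| * J) :=
        Real.rpow_le_rpow_of_exponent_le one_le_two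
          (mul_le_mul_of_nonneg_right (le_abs_self N) hJ0)
      have h6 : (1 : ℝ) ≤ 2 ^ (|N| * J) := Real.one_le_rpow one_le_two (by positivity)
      have h7 : |(2 : ℝ) ^ (N * J) * ojet F (c l) 0 (H (slam F ⌊w * J⌋₊ ω) l) ω| ≤
          2 ^ (|N| * J) := by
        rw [abs_mul, abs_of_pos (Real.rpow_pos_of_pos two_pos _)]
        calc (2 : ℝ) ^ (N * J) * |ojet F (c l) 0 (H (slam F ⌊w * J⌋₊ ω) l) ω| ≤
              2 ^ (|N| * J) * 1 := mul_le_mul h5 h4 (abs_nonneg _) (by positivity)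
          _ = 2 ^ (|N| * J) := mul_one _
      have h8 : hgC F c w H l N ω =
          ⌊(2 : ℝ) ^ (N * J) * ojet F (c l) 0 (H (slam F ⌊w * J⌋₊ ω) l) ω⌋ := rfl
      rw [h8]
      have c1 := Int.floor_le ((2 : ℝ) ^ (N * J) * ojet F (c l) 0 (H (slam F ⌊w * J⌋₊ ω) l) ω)
      have c2 := Int.lt_floor_add_one
        ((2 : ℝ) ^ (N * J) * ojet F (c l) 0 (H (slam F ⌊w * J⌋₊ ω) l) ω)
      rw [abs_le] at h7 ⊢
      constructor <;> linarith [h7.1, h7.2]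
    have h6 : (1 : ℝ) ≤ 2 ^ (|N| * J) := Real.one_le_rpow one_le_two (by positivity)
    refine (cnt_le_of_abs (p := F.p) (by positivity) hb).trans ?_
    have h8 : 2 * (2 * (2 : ℝ) ^ (|N| * J)) + 1 ≤ 5 * 2 ^ (|N| * J) := by linarith
    refine h8.trans ?_
    have e4 : (5 : ℝ) * 2 ^ (|N| * J) = Real.exp (Real.log 5 + |N| * J * Real.log 2) := by
      rw [Real.exp_add, Real.exp_log (by norm_num), Real.rpow_def_of_pos (by norm_num)]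
      congr 2
      ring
    rw [e4]
    refine Real.exp_le_exp.2 ?_
    have h9 : Real.log 5 ≤ 2 := by
      rw [Real.log_le_iff_le_exp (by norm_num)]
      have h10 : (2.7182818283 : ℝ) < Real.exp 1 := Real.exp_one_gt_d9
      have h11 : Real.exp 2 = Real.exp 1 * Real.exp 1 := by
        rw [← Real.exp_add]
        norm_num
      rw [h11]
      nlinarith
    have h10 : (|N| * Real.log 2 + 2) * J ≤ K * J := mul_le_mul_of_nonneg_right hK hJ0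
    nlinarith
  · rw [h2]
    rfl

/-- **One block of digits.** -/
theorem row_one {S : PCl m}
    (hpos : ∀ (τ : ℝ) (J : ℕ) (F : Fam m J) (A : F.Ω → Prop), S.St τ J F A → 0 < Pe F.p A)
    {c : ℕ → Fin m} {D : ℕ} {s p n : ℕ → ℝ} {w nt h δ P₁ P₂ : ℝ} (hw1 : w ≤ 1)
    (hP1 : 0 ≤ P₁) (hP : P₁ ≤ P₂) (hPn : P₂ ≤ n 3) (hps : ∀ l ≤ 3, p l ≤ s l)
    (hR : RwC S (fun _ F => F.W) c 0 2 w p n P₁ P₂ h δ) {δ' c₀ : ℝ} (hδ' : 0 < δ')
    (hc₀ : 0 < c₀) : ∃ e₁ : ℝ, 0 < e₁ ∧ Bas S (fun J F A =>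
      ∀ H : LnT F → ℕ → MvPolynomial (Option (Fin m)) ℝ, LbW F A c D w e₁ s H →
      CH (Pool.Agent.H49.Ent.cond F.p A True)
        (fun ω => ((fun l : Fin 2 => hgC F c w H l (n l) ω), hgC F c w H 2 nt ω))
        (fun ω => (F.T ω, x0 F A c D w n nt H ω)) ≤ e₁ * J →
      CH (Pool.Agent.H49.Ent.cond F.p A True) (hgC F c w H 2 (n 2))
        (fun ω => (F.T ω, xn F A c D w n nt H ω)) ≤ e₁ * J →
      ((1 - w) * Real.log 2 - e₁) * J ≤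
        CH (Pool.Agent.H49.Ent.cond F.p A True) F.T (slam F ⌊w * J⌋₊) →
      ∀ Xd a b : ℕ, Xd = a + ⌊P₂ * J⌋₊ → Xd = b + ⌊P₁ * J⌋₊ → ∃ Sf : _ × ℤ → Finset ℤ,
      (∀ y, ((Sf y).card : ℝ) ≤
        Real.exp (((1 - h) * (P₂ - P₁) * Real.log 2 + δ + δ') * J)) ∧
      Pe (Pool.Agent.H49.Ent.cond F.p A True) (fun ω =>
        ¬ ⌊(2 : ℝ) ^ Xd * lv F c w H 3 ω⌋ / 2 ^ a ∈
          Sf (xg F A c D w n nt H ω, ⌊(2 : ℝ) ^ Xd * lv F c w H 3 ω⌋ / 2 ^ b)) < c₀) := by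
  obtain ⟨k, hk, e₀, he₀, hB⟩ := hR c₀ hc₀
  obtain ⟨K, hK⟩ : ∃ K : ℕ, (D : ℝ) + (|n 0| + |n 1| + |n 2| + |P₁| + |P₂|) * Real.log 2 + 2 ≤ K :=
    exists_nat_ge _
  have hl2 : 0 ≤ Real.log 2 := Real.log_nonneg one_le_two
  have hDK : D ≤ K := by
    have h1 : 0 ≤ (|n 0| + |n 1| + |n 2| + |P₁| + |P₂|) * Real.log 2 := by positivity
    have h2 : (D : ℝ) ≤ K := by linarith
    exact_mod_cast h2
  have hD0 : (0 : ℝ) ≤ D := Nat.cast_nonneg D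
  have hKx : ∀ x : ℝ, |x| ≤ |n 0| + |n 1| + |n 2| + |P₁| + |P₂| → |x| * Real.log 2 + 2 ≤ K := by
    intro x hx
    have := mul_le_mul_of_nonneg_right hx hl2
    linarith
  obtain ⟨e₁, he₁, hee, hec⟩ : ∃ e₁ : ℝ, 0 < e₁ ∧ e₁ ≤ e₀ ∧ 3 * e₁ / c₀ ≤ δ' / 2 := by
    refine ⟨min e₀ (δ' * c₀ / 6), lt_min he₀ (by positivity), min_le_left _ _, ?_⟩
    rw [div_le_iff₀ hc₀]
    have := min_le_right e₀ (δ' * c₀ / 6)
    linarith
  obtain ⟨Cc, hCc⟩ : ∃ Cc : ℝ, Cc = 2 * Real.log 2 / c₀ + Real.log 7 + Real.log 5 +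
      2 * Real.log (2 * ((D + 3 : ℕ) : ℝ) + 1) + Real.log (1 / c₀) + 1 := ⟨_, rfl⟩
  obtain ⟨J₀, hJ₀⟩ := exists_nat_ge (Cc / (δ' / 2))
  refine ⟨e₁, he₁, Bas.mono (J₀ + 1) ((hB K).and (pos_bas hpos)) ?_⟩
  rintro J hJ F A ⟨H1, hA⟩ H hL ht hn htm Xd a b ha hb
  have hJ0 : (0 : ℝ) ≤ J := Nat.cast_nonneg J
  have hJ1 : 1 ≤ J := by omega
  have hq : ∀ l ≤ 3, ∀ N : ℝ, |N| ≤ |n 0| + |n 1| + |n 2| + |P₁| + |P₂| →
      (qJet m ((range l).image c) (c l) 0 w (p l) N).P K e₀ J F A (hgC F c w H l N) :=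
    fun l hl N hN => hq_jet hDK (hKx N hN) hJ1 (hps l hl) hee (hL l hl).1
  have hdeg : ∀ x, (H x 3).totalDegree ≤ D := by
    obtain ⟨V, z, z', G, h1, h2⟩ := (hL 3 le_rfl).1
    intro x
    rw [← h2]
    exact h1.deg _
  have hu : (qJets m c 0 (2 + 1) 0 (fun _ _ => w) (fun l _ => p l) (fun l _ => n l)).P K e₀ J F A
      (hq3 F c w n H) := by
    refine ⟨fun i _ hi j' hj' => ?_, fun ω _ i j' hij => ?_⟩
    · obtain rfl : j' = 0 := by omega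
      have e1 : (fun ω => hq3 F c w n H ω i 0) = hgC F c w H i (n i) := by
        funext ω
        unfold hq3
        rw [if_pos ⟨by omega, rfl⟩]
      rw [e1]
      refine hq i (by omega) (n i) ?_
      have a0 := abs_nonneg (n 0)
      have a1 := abs_nonneg (n 1)
      have a2 := abs_nonneg (n 2)
      have a3 := abs_nonneg P₁
      have a4 := abs_nonneg P₂
      interval_cases i <;> linarith
    · unfold hq3
      rw [if_neg (fun h' => hij ⟨Nat.zero_le _, by omega, by omega⟩)]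
  have a0 := abs_nonneg (n 0)
  have a1 := abs_nonneg (n 1)
  have a2 := abs_nonneg (n 2)
  have a3 := abs_nonneg P₁
  have a4 := abs_nonneg P₂
  have h2 := H1 _ (cR F A w) (mx_cR hA w hk.le) _ _ _ hu (hq 3 le_rfl P₁ (by linarith))
    (hq 3 le_rfl P₂ (by linarith))
  obtain ⟨Sf, hS1, hS2⟩ := row_ev hA hw1 (nt := nt) hdeg hP1 hP hPn hc₀ he₁.le ht hn htm
    (R := ((1 - h) * (P₂ - P₁) * Real.log 2 + δ) * J) (fun B' hB' hm => h2 B' hB' hm) ha hb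
  refine ⟨Sf, fun y => (hS1 y).trans (Real.exp_le_exp.2 ?_), hS2⟩
  have h3 : Cc ≤ δ' / 2 * J := by
    have h4 : (J₀ : ℝ) ≤ J := by
      have h5 : J₀ ≤ J := by omega
      exact_mod_cast h5
    have h5 := hJ₀.trans h4
    rw [div_le_iff₀ (by linarith)] at h5
    linarith
  have h4 : (3 * (e₁ * J) + 2 * Real.log 2) / c₀ = 3 * e₁ / c₀ * J + 2 * Real.log 2 / c₀ := by
    ring
  have h5 : 3 * e₁ / c₀ * J ≤ δ' / 2 * J := mul_le_mul_of_nonneg_right hec hJ0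
  rw [h4]
  rw [hCc] at h3
  linarith

theorem Pb_Pe {Ω : Type} [Fintype Ω] (p : Ω → ℝ) (A : Ω → Prop) : Pb p A = Pe p A := by
  rw [Pe_eq]
  rfl

/-- A positive number below finitely many. -/
theorem min_lt (N : ℕ) (f : ℕ → ℝ) (hf : ∀ i, 0 < f i) : ∃ m : ℝ, 0 < m ∧ ∀ i < N, m ≤ f i := by
  induction N with
  | zero => exact ⟨1, one_pos, fun i hi => absurd hi (Nat.not_lt_zero i)⟩
  | succ N ih =>
    obtain ⟨m, hm, h⟩ := ih
    refine ⟨min m (f N), lt_min hm (hf N), fun i hi => ?_⟩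
    rcases Nat.lt_or_ge i N with h1 | h1
    · exact (min_le_left _ _).trans (h i h1)
    · obtain rfl : i = N := by omega
      exact min_le_right _ _

theorem _root_.Pool.NDC42.LbW.mono {J : ℕ} {F : Fam m J} {A : F.Ω → Prop} {c : ℕ → Fin m}
    {D : ℕ} {w e e' : ℝ} {s : ℕ → ℝ} {H : LnT F → ℕ → MvPolynomial (Option (Fin m)) ℝ}
    (h : LbW F A c D w e s H) (he : e ≤ e') : LbW F A c D w e' s H := by
  intro l hl
  obtain ⟨⟨V, z, z', G, h1, h2⟩, h3⟩ := h l hl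
  refine ⟨⟨V, z, z', G, h1.mono (Finset.Subset.refl _) le_rfl (Nat.floor_le_floor
    (mul_le_mul_of_nonneg_right (by linarith) (Nat.cast_nonneg J))), h2⟩, h3⟩

/-- **The rows of the target at the time zero**, finitely many blocks. -/
theorem row_cls {S : PCl m}
    (hpos : ∀ (τ : ℝ) (J : ℕ) (F : Fam m J) (A : F.Ω → Prop), S.St τ J F A → 0 < Pe F.p A)
    {c : ℕ → Fin m} {D : ℕ} {s p n : ℕ → ℝ} {w nt h δ : ℝ} (hw1 : w ≤ 1)
    (hps : ∀ l ≤ 3, p l ≤ s l) (N : ℕ) {P₁ P₂ : ℕ → ℝ}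
    (hP : ∀ k < N, 0 ≤ P₁ k ∧ P₁ k ≤ P₂ k ∧ P₂ k ≤ n 3)
    (hR : ∀ k < N, RwC S (fun _ F => F.W) c 0 2 w p n (P₁ k) (P₂ k) h δ) {δ' c₁ : ℝ}
    (hδ' : 0 < δ') (hc₁ : 0 < c₁) : ∃ e₁ : ℝ, 0 < e₁ ∧ Bas S (fun J F A =>
      ∀ (t x' e : ℝ) (H : LnT F → ℕ → MvPolynomial (Option (Fin m)) ℝ), e ≤ e₁ →
      LbW F A c D w e₁ s H → NdE F A c D w t x' n nt e H →
      ∀ Xd : ℕ, (∀ k < N, P₂ k * J ≤ Xd) →
      ∃ (Sf : ℕ → _ × ℤ → Finset ℤ) (B : F.Ω → Prop),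
      (∀ ω, B ω → ∀ k < N, ⌊(2 : ℝ) ^ Xd * lv F c w H 3 ω⌋ / 2 ^ (Xd - ⌊P₂ k * J⌋₊) ∈
        Sf k (xg F A c D w n nt H ω,
          ⌊(2 : ℝ) ^ Xd * lv F c w H 3 ω⌋ / 2 ^ (Xd - ⌊P₁ k * J⌋₊))) ∧
      (∀ k < N, ∀ y, ((Sf k y).card : ℝ) ≤
        Real.exp (((1 - h) * (P₂ k - P₁ k) * Real.log 2 + δ + δ') * J)) ∧
      Pb (Pool.Agent.H49.Ent.cond F.p A True) (fun ω => ¬ B ω) ≤ c₁) := by
  classical
  have hN : (0 : ℝ) < N + 1 := by positivity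
  have h0 : ∀ k, ∃ e₁ : ℝ, 0 < e₁ ∧ (k < N → Bas S (fun J F A =>
      ∀ H : LnT F → ℕ → MvPolynomial (Option (Fin m)) ℝ, LbW F A c D w e₁ s H →
      CH (Pool.Agent.H49.Ent.cond F.p A True)
        (fun ω => ((fun l : Fin 2 => hgC F c w H l (n l) ω), hgC F c w H 2 nt ω))
        (fun ω => (F.T ω, x0 F A c D w n nt H ω)) ≤ e₁ * J →
      CH (Pool.Agent.H49.Ent.cond F.p A True) (hgC F c w H 2 (n 2))
        (fun ω => (F.T ω, xn F A c D w n nt H ω)) ≤ e₁ * J →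
      ((1 - w) * Real.log 2 - e₁) * J ≤
        CH (Pool.Agent.H49.Ent.cond F.p A True) F.T (slam F ⌊w * J⌋₊) →
      ∀ Xd a b : ℕ, Xd = a + ⌊P₂ k * J⌋₊ → Xd = b + ⌊P₁ k * J⌋₊ →
      ∃ Sf : _ × ℤ → Finset ℤ,
      (∀ y, ((Sf y).card : ℝ) ≤
        Real.exp (((1 - h) * (P₂ k - P₁ k) * Real.log 2 + δ + δ') * J)) ∧
      Pe (Pool.Agent.H49.Ent.cond F.p A True) (fun ω =>
        ¬ ⌊(2 : ℝ) ^ Xd * lv F c w H 3 ω⌋ / 2 ^ a ∈
          Sf (xg F A c D w n nt H ω, ⌊(2 : ℝ) ^ Xd * lv F c w H 3 ω⌋ / 2 ^ b)) <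
        c₁ / (N + 1))) := by
    intro k
    by_cases hk : k < N
    · obtain ⟨h1, h2, h3⟩ := hP k hk
      obtain ⟨e₁, he₁, h4⟩ := row_one hpos (D := D) (nt := nt) hw1 h1 h2 h3 hps (hR k hk) hδ'
        (div_pos hc₁ hN)
      exact ⟨e₁, he₁, fun _ => h4⟩
    · exact ⟨1, one_pos, fun h1 => absurd h1 hk⟩
  choose ef hef hB using h0
  obtain ⟨e₁, he₁, hmin⟩ := min_lt N ef hef
  have hall : Bas S (fun J F A => ∀ k < N,
      ∀ H : LnT F → ℕ → MvPolynomial (Option (Fin m)) ℝ, LbW F A c D w (ef k) s H →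
      CH (Pool.Agent.H49.Ent.cond F.p A True)
        (fun ω => ((fun l : Fin 2 => hgC F c w H l (n l) ω), hgC F c w H 2 nt ω))
        (fun ω => (F.T ω, x0 F A c D w n nt H ω)) ≤ ef k * J →
      CH (Pool.Agent.H49.Ent.cond F.p A True) (hgC F c w H 2 (n 2))
        (fun ω => (F.T ω, xn F A c D w n nt H ω)) ≤ ef k * J →
      ((1 - w) * Real.log 2 - ef k) * J ≤
        CH (Pool.Agent.H49.Ent.cond F.p A True) F.T (slam F ⌊w * J⌋₊) →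
      ∀ Xd a b : ℕ, Xd = a + ⌊P₂ k * J⌋₊ → Xd = b + ⌊P₁ k * J⌋₊ →
      ∃ Sf : _ × ℤ → Finset ℤ,
      (∀ y, ((Sf y).card : ℝ) ≤
        Real.exp (((1 - h) * (P₂ k - P₁ k) * Real.log 2 + δ + δ') * J)) ∧
      Pe (Pool.Agent.H49.Ent.cond F.p A True) (fun ω =>
        ¬ ⌊(2 : ℝ) ^ Xd * lv F c w H 3 ω⌋ / 2 ^ a ∈
          Sf (xg F A c D w n nt H ω, ⌊(2 : ℝ) ^ Xd * lv F c w H 3 ω⌋ / 2 ^ b)) <
        c₁ / (N + 1)) := Bas.all N fun k hk => hB k hk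
  refine ⟨e₁, he₁, Bas.mono 0 (hall.and (pos_bas hpos)) ?_⟩
  rintro J - F A ⟨H1, hA⟩ t x' e H he hL hE Xd hX
  have hJ0 : (0 : ℝ) ≤ J := Nat.cast_nonneg J
  have h2 : ∀ k, ∃ Sf : _ × ℤ → Finset ℤ, k < N → (∀ y, ((Sf y).card : ℝ) ≤
        Real.exp (((1 - h) * (P₂ k - P₁ k) * Real.log 2 + δ + δ') * J)) ∧
      Pe (Pool.Agent.H49.Ent.cond F.p A True) (fun ω =>
        ¬ ⌊(2 : ℝ) ^ Xd * lv F c w H 3 ω⌋ / 2 ^ (Xd - ⌊P₂ k * J⌋₊) ∈
          Sf (xg F A c D w n nt H ω,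
            ⌊(2 : ℝ) ^ Xd * lv F c w H 3 ω⌋ / 2 ^ (Xd - ⌊P₁ k * J⌋₊))) <
        c₁ / (N + 1) := by
    intro k
    by_cases hk : k < N
    · have a1 : ⌊P₂ k * (J : ℝ)⌋₊ ≤ Xd := Nat.floor_le_of_le (hX k hk)
      have a2 : ⌊P₁ k * (J : ℝ)⌋₊ ≤ ⌊P₂ k * (J : ℝ)⌋₊ :=
        Nat.floor_le_floor (mul_le_mul_of_nonneg_right (hP k hk).2.1 hJ0)
      have hee : e ≤ ef k := he.trans (hmin k hk)
      have hm : e * J ≤ ef k * J := mul_le_mul_of_nonneg_right hee hJ0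
      obtain ⟨Sf, h3⟩ := H1 k hk H (hL.mono (hmin k hk)) (hE.ht.trans hm) (hE.hn.trans hm)
        (le_trans (mul_le_mul_of_nonneg_right (by linarith) hJ0) hE.tm) Xd
        (Xd - ⌊P₂ k * J⌋₊) (Xd - ⌊P₁ k * J⌋₊) (by omega) (by omega)
      exact ⟨Sf, fun _ => h3⟩
    · exact ⟨fun _ => ∅, fun h => absurd h hk⟩
  choose Sf hSf using h2
  have p0 := (isLaw_cond F.isLaw hA).nonneg
  refine ⟨Sf, fun ω => ∀ k < N, ⌊(2 : ℝ) ^ Xd * lv F c w H 3 ω⌋ / 2 ^ (Xd - ⌊P₂ k * J⌋₊) ∈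
        Sf k (xg F A c D w n nt H ω,
          ⌊(2 : ℝ) ^ Xd * lv F c w H 3 ω⌋ / 2 ^ (Xd - ⌊P₁ k * J⌋₊)),
    fun ω h => h, fun k hk y => (hSf k hk).1 y, ?_⟩
  refine le_trans (Pb_mono p0 (B := fun ω => ∃ k : Fin N,
      ¬ ⌊(2 : ℝ) ^ Xd * lv F c w H 3 ω⌋ / 2 ^ (Xd - ⌊P₂ k * J⌋₊) ∈
        Sf k (xg F A c D w n nt H ω,
          ⌊(2 : ℝ) ^ Xd * lv F c w H 3 ω⌋ / 2 ^ (Xd - ⌊P₁ k * J⌋₊))) fun ω _ h => ?_) ?_
  · push Not at h
    obtain ⟨k, hk, h1⟩ := h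
    exact ⟨⟨k, hk⟩, h1⟩
  refine (Pool.MIC.Pb_exists_le p0 _).trans ?_
  refine (Finset.sum_le_sum (g := fun _ => c₁ / (N + 1)) fun k _ => ?_).trans ?_
  · rw [Pb_Pe]
    exact (hSf k k.2).2.le
  · rw [Finset.sum_const, Finset.card_univ, Fintype.card_fin, nsmul_eq_mul, ← mul_div_assoc,
      div_le_iff₀ hN]
    nlinarith

end Pool.ROW95
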