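import Pool.Agent.H50.K2.Piece

/-!
# Entropy bounds on all large events and the number of values

`ent_low`: if every value of `U` on the event `B` has a conditional probability `≤ exp (-L)` given `Y`,
then the entropy of `U` given `Y` on `B` is at least `L` minus the logarithm of the inverse of the mass
of `B`. `cnt_ent`: if the entropy of `U` given `Y` is at most `h` on all events of mass `≥ c`, then off an
event of mass `< c` the value of `U` is in a set of `≤ exp (h + log (1 / c) + 1)` elements, which depends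
on `Y` only.
-/

set_option autoImplicit false

namespace Pool.ROW95

open Finset Real
open Pool.Agent.H49.Ent Pool.Agent.H32.Dense Pool.STK Pool.KA Pool.K2S

variable {Ω S T : Type} [Fintype Ω]

/-- The law of a variable on an event. -/
theorem law_cond_le {p : Ω → ℝ} (hp : ∀ ω, 0 ≤ p ω) {B : Ω → Prop} (hB : 0 < Pe p B)
    (X : Ω → S) (s : S) : law (Pool.Agent.H49.Ent.cond p B True) X s ≤ law p X s / Pe p B := by
  classical
  unfold law
  rw [Finset.sum_div]
  refine Finset.sum_le_sum fun ω _ => ?_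
  by_cases h : X ω = s
  · rw [if_pos h, if_pos h]
    unfold Pool.Agent.H49.Ent.cond
    split_ifs with h1
    · exact le_rfl
    · exact div_nonneg (hp ω) hB.le
  · rw [if_neg h, if_neg h, zero_div]

/-- **A lower bound of the entropy on an event.** -/
theorem ent_low {p : Ω → ℝ} (hp : IsLaw p) (U : Ω → S) (Y : Ω → T) {L : ℝ} {B : Ω → Prop}
    (hB : 0 < Pe p B) (h : ∀ ω, 0 < p ω → B ω →
      law p (fun ω => (U ω, Y ω)) (U ω, Y ω) ≤ Real.exp (-L) * law p Y (Y ω)) :
    L - Real.log (1 / Pe p B) ≤ CH (Pool.Agent.H49.Ent.cond p B True) U Y := by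
  classical
  have p0 := hp.nonneg
  obtain ⟨q, hq⟩ : ∃ q : Ω → ℝ, q = Pool.Agent.H49.Ent.cond p B True := ⟨_, rfl⟩
  have ql : IsLaw q := by rw [hq]; exact isLaw_cond hp hB
  have q0 := ql.nonneg
  have hqp : ∀ ω, 0 < q ω → 0 < p ω ∧ B ω := fun ω hω => by
    rw [hq] at hω
    have h1 := (cond_pos_iff p0 B True ω).1 hω
    exact ⟨h1.1, by rw [h1.2]; trivial⟩
  rw [← hq]
  -- the terms
  have hterm : ∀ ω, q ω * (L - Real.log (1 / Pe p B) -
      (law p Y (Y ω) / law q Y (Y ω) - 1)) ≤
      q ω * (Real.log (law q Y (Y ω)) - Real.log (law q (fun ω => (U ω, Y ω)) (U ω, Y ω))) := by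
    intro ω
    rcases (q0 ω).eq_or_lt with h0 | h0
    · rw [← h0, zero_mul, zero_mul]
    refine mul_le_mul_of_nonneg_left ?_ h0.le
    obtain ⟨h1, h2⟩ := hqp ω h0
    have a1 : 0 < law q (fun ω => (U ω, Y ω)) (U ω, Y ω) := law_pos q0 _ h0
    have a2 : 0 < law q Y (Y ω) := law_pos q0 _ h0
    have a3 : 0 < law p Y (Y ω) := law_pos p0 _ h1
    have a4 : law q (fun ω => (U ω, Y ω)) (U ω, Y ω) ≤
        Real.exp (-L) * law p Y (Y ω) / Pe p B := by
      rw [hq]
      exact (law_cond_le p0 hB _ _).trans (div_le_div_of_nonneg_right (h ω h1 h2) hB.le)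
    have a5 := Real.log_le_log a1 a4
    rw [Real.log_div (mul_pos (Real.exp_pos _) a3).ne' hB.ne', Real.log_mul (Real.exp_pos _).ne'
      a3.ne', Real.log_exp] at a5
    have a6 : Real.log (1 / Pe p B) = -Real.log (Pe p B) := by rw [one_div, Real.log_inv]
    have a7 := Real.log_le_sub_one_of_pos (div_pos a3 a2)
    rw [Real.log_div a3.ne' a2.ne'] at a7
    linarith
  -- the sum of the quotients
  have hquo : ∑ ω, q ω * (law p Y (Y ω) / law q Y (Y ω)) ≤ 1 := by
    have e1 : ∑ ω, q ω * (law p Y (Y ω) / law q Y (Y ω)) =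
        ∑ t ∈ univ.image Y, law q Y t * (law p Y t / law q Y t) :=
      sum_mul_eq_sum_image q Y fun t => law p Y t / law q Y t
    have e2 : ∑ t ∈ univ.image Y, law q Y t * (law p Y t / law q Y t) ≤
        ∑ t ∈ univ.image Y, law p Y t := by
      refine Finset.sum_le_sum fun t _ => ?_
      have b1 := law_nonneg q0 Y t
      have b2 := law_nonneg p0 Y t
      rcases b1.eq_or_lt with h0 | h0
      · rw [← h0, zero_mul]
        exact b2
      · rw [mul_div_cancel₀ _ h0.ne']
    have e3 : ∑ t ∈ univ.image Y, law p Y t = 1 := by rw [sum_law, hp.sum_one]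
    linarith
  have hsum := Finset.sum_le_sum fun ω (_ : ω ∈ univ) => hterm ω
  have l1 : ∑ ω, q ω * (L - Real.log (1 / Pe p B) - (law p Y (Y ω) / law q Y (Y ω) - 1)) =
      L - Real.log (1 / Pe p B) + 1 - ∑ ω, q ω * (law p Y (Y ω) / law q Y (Y ω)) := by
    have e1 : ∀ ω, q ω * (L - Real.log (1 / Pe p B) - (law p Y (Y ω) / law q Y (Y ω) - 1)) =
        q ω * (L - Real.log (1 / Pe p B) + 1) - q ω * (law p Y (Y ω) / law q Y (Y ω)) :=
      fun ω => by ring
    rw [Finset.sum_congr rfl fun ω _ => e1 ω, Finset.sum_sub_distrib, ← Finset.sum_mul,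
      ql.sum_one, one_mul]
  have l2 : ∑ ω, q ω * (Real.log (law q Y (Y ω)) -
      Real.log (law q (fun ω => (U ω, Y ω)) (U ω, Y ω))) = CH q U Y := by
    unfold CH H
    have e1 : ∀ ω, q ω * (Real.log (law q Y (Y ω)) -
        Real.log (law q (fun ω => (U ω, Y ω)) (U ω, Y ω))) = q ω * Real.log (law q Y (Y ω)) -
        q ω * Real.log (law q (fun ω => (U ω, Y ω)) (U ω, Y ω)) := fun ω => by ring
    rw [Finset.sum_congr rfl fun ω _ => e1 ω, Finset.sum_sub_distrib]
    ring
  rw [l1, l2] at hsum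
  linarith

/-- **The number of values.** -/
theorem cnt_ent {p : Ω → ℝ} (hp : IsLaw p) (U : Ω → S) (Y : Ω → T) {c h : ℝ} (hc : 0 < c)
    (hh : ∀ B : Ω → Prop, c ≤ Pe p B → CH (Pool.Agent.H49.Ent.cond p B True) U Y ≤ h) :
    ∃ Sf : T → Finset S, (∀ y, ((Sf y).card : ℝ) ≤ Real.exp (h + Real.log (1 / c) + 1)) ∧
      Pe p (fun ω => ¬ U ω ∈ Sf (Y ω)) < c := by
  classical
  have p0 := hp.nonneg
  obtain ⟨L, hL⟩ : ∃ L : ℝ, L = h + Real.log (1 / c) + 1 := ⟨_, rfl⟩
  obtain ⟨Sf, hSf⟩ : ∃ Sf : T → Finset S,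
      Sf = fun y => if 0 < law p Y y then Piece.big p U Y L y else ∅ := ⟨_, rfl⟩
  refine ⟨Sf, fun y => ?_, ?_⟩
  · rw [hSf, ← hL]
    show ((if 0 < law p Y y then Piece.big p U Y L y else ∅ : Finset S).card : ℝ) ≤ _
    split_ifs with h1
    · exact Piece.big_card p0 U Y h1
    · rw [Finset.card_empty, Nat.cast_zero]
      exact (Real.exp_pos _).le
  · by_contra hcon
    push Not at hcon
    have hB : 0 < Pe p (fun ω => ¬ U ω ∈ Sf (Y ω)) := lt_of_lt_of_le hc hcon
    have h1 := ent_low hp U Y (L := L) hB (fun ω hω hn => by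
      rw [hSf] at hn
      have h2 : 0 < law p Y (Y ω) := law_pos p0 Y hω
      have h3 : ¬ U ω ∈ Piece.big p U Y L (Y ω) := by
        intro h4
        apply hn
        show U ω ∈ (if 0 < law p Y (Y ω) then Piece.big p U Y L (Y ω) else ∅)
        rw [if_pos h2]
        exact h4
      unfold Piece.big at h3
      rw [Finset.mem_filter, not_and] at h3
      have h4 := h3 (Finset.mem_image_of_mem U (Finset.mem_univ ω))
      exact (not_le.1 h4).le)
    have h2 := hh _ hcon
    have h3 : Real.log (1 / Pe p (fun ω => ¬ U ω ∈ Sf (Y ω))) ≤ Real.log (1 / c) :=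
      Real.log_le_log (by positivity) (one_div_le_one_div_of_le hc hcon)
    linarith

end Pool.ROW95
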