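import Pool.Agent.H68.OWN.Npl
import Pool.Agent.H68.OWN.Jn
import Pool.Agent.H95.ROW.Cnt

/-!
# The digits of the level of a path at the time zero

`row_zero`: the value `V` at the own time differs from the level `n` by a quantity which is known, up to a
unit, given `x` and the time `t`; the time is free of the digits of the level given `x`, up to `e`: then
the digits of the level given `x` and the higher ones are not more than those of the value given `x`, `t`.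
-/

set_option autoImplicit false

namespace Pool.ROW95

open Finset Real
open Pool.Agent.H49.Ent Pool.Agent.H32.Dense Pool.STK Pool.KA Pool.K2S
open Pool.OWN68 (CH_pair floor_sub_le CH_exch)

variable {Ω X T : Type} [Fintype Ω]

/-- Four functions: a change of the value and of the higher digits. -/
theorem CH_chg {A B A' B' : Type} {p : Ω → ℝ} (hp : IsLaw p) (a : Ω → A) (b : Ω → B)
    (a' : Ω → A') (b' : Ω → B') (y : Ω → T) {c₁ c₂ : ℝ}
    (h1 : CH p b' (fun ω => (b ω, y ω)) ≤ c₁) (h2 : CH p a (fun ω => (a' ω, y ω)) ≤ c₂) :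
    CH p a (fun ω => (b ω, y ω)) ≤ CH p a' (fun ω => (b' ω, y ω)) + c₁ + c₂ := by
  have p0 := hp.nonneg
  have e1 : CH p a (fun ω => (b ω, y ω)) ≤ CH p (fun ω => (a ω, b' ω)) (fun ω => (b ω, y ω)) :=
    CH_mono_left p0 fun ω ω' _ _ h => (Prod.ext_iff.1 (Prod.ext_iff.1 h).1).1
  have e2 := CH_chain p0 a b' (fun ω => (b ω, y ω))
  have e3 : CH p a (fun ω => (b' ω, (b ω, y ω))) ≤
      CH p (fun ω => (a ω, a' ω)) (fun ω => (b' ω, (b ω, y ω))) :=
    CH_mono_left p0 fun ω ω' _ _ h => (Prod.ext_iff.1 (Prod.ext_iff.1 h).1).1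
  have e4 := CH_chain p0 a a' (fun ω => (b' ω, (b ω, y ω)))
  have e5 : CH p a' (fun ω => (b' ω, (b ω, y ω))) ≤ CH p a' (fun ω => (b' ω, y ω)) :=
    CH_mono_cond p0 fun ω ω' _ _ h => by
      simp only [Prod.mk.injEq] at h ⊢
      exact ⟨h.1, h.2.2⟩
  have e6 : CH p a (fun ω => (a' ω, (b' ω, (b ω, y ω)))) ≤ CH p a (fun ω => (a' ω, y ω)) :=
    CH_mono_cond p0 fun ω ω' _ _ h => by
      simp only [Prod.mk.injEq] at h ⊢
      exact ⟨h.1, h.2.2.2⟩
  linarith

/-- **The digits of the level.** -/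
theorem row_zero {p : Ω → ℝ} (hp : IsLaw p) (n V : Ω → ℝ) (x : Ω → X) (t : Ω → T) {sa sb : ℝ}
    {C : ℕ} (hsb : 0 ≤ sb) (hab : sb ≤ sa) (hV : ∀ ω ω', 0 < p ω → 0 < p ω' → x ω = x ω' →
      t ω = t ω' → sa * |(V ω - V ω') - (n ω - n ω')| ≤ C) {e : ℝ}
    (ht : CH p t (fun ω => (⌊sb * n ω⌋, x ω)) ≤
      CH p t (fun ω => (⌊sa * n ω⌋, (⌊sb * n ω⌋, x ω))) + e) :
    CH p (fun ω => ⌊sa * n ω⌋) (fun ω => (⌊sb * n ω⌋, x ω)) ≤
      CH p (fun ω => ⌊sa * V ω⌋) (fun ω => (⌊sb * V ω⌋, (x ω, t ω))) + e +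
        2 * Real.log (2 * ((C + 2 : ℕ) : ℝ) + 1) := by
  have p0 := hp.nonneg
  have hsa : 0 ≤ sa := hsb.trans hab
  have h1 := CH_exch p0 (fun ω => ⌊sa * n ω⌋) t (fun ω => (⌊sb * n ω⌋, x ω))
  have h2 : CH p (fun ω => ⌊sa * n ω⌋) (fun ω => (t ω, (⌊sb * n ω⌋, x ω))) ≤
      CH p (fun ω => ⌊sa * n ω⌋) (fun ω => (⌊sb * n ω⌋, (x ω, t ω))) :=
    CH_mono_cond p0 fun ω ω' _ _ h => by
      simp only [Prod.mk.injEq] at h ⊢
      exact ⟨h.2.1, h.2.2, h.1⟩
  have h3 : CH p (fun ω => ⌊sb * V ω⌋) (fun ω => (⌊sb * n ω⌋, (x ω, t ω))) ≤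
      Real.log (2 * ((C + 2 : ℕ) : ℝ) + 1) := by
    refine CH_pair hp _ _ fun ω ω' hω hω' h => ?_
    simp only [Prod.mk.injEq] at h
    obtain ⟨e1, e2, e3⟩ := h
    have g1 := hV ω ω' hω hω' e2 e3
    have g2 : |sb * n ω - sb * n ω'| ≤ 1 := by
      have k1 := Int.floor_le (sb * n ω)
      have k2 := Int.lt_floor_add_one (sb * n ω)
      have k3 := Int.floor_le (sb * n ω')
      have k4 := Int.lt_floor_add_one (sb * n ω')
      rw [e1] at k1 k2
      rw [abs_le]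
      constructor <;> linarith
    have g3 : sb * |(V ω - V ω') - (n ω - n ω')| ≤ C :=
      (mul_le_mul_of_nonneg_right hab (abs_nonneg _)).trans g1
    have g4 : |sb * V ω - sb * V ω'| ≤ ((C + 1 : ℕ) : ℝ) := by
      have k1 : sb * V ω - sb * V ω' = sb * ((V ω - V ω') - (n ω - n ω')) +
          (sb * n ω - sb * n ω') := by ring
      rw [k1]
      refine (abs_add_le _ _).trans ?_
      rw [abs_mul, abs_of_nonneg hsb]
      push_cast
      linarith
    exact floor_sub_le g4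
  have h4 : CH p (fun ω => ⌊sa * n ω⌋) (fun ω => (⌊sa * V ω⌋, (x ω, t ω))) ≤
      Real.log (2 * ((C + 2 : ℕ) : ℝ) + 1) := by
    refine CH_pair hp _ _ fun ω ω' hω hω' h => ?_
    simp only [Prod.mk.injEq] at h
    obtain ⟨e1, e2, e3⟩ := h
    have g1 := hV ω ω' hω hω' e2 e3
    have g2 : |sa * V ω - sa * V ω'| ≤ 1 := by
      have k1 := Int.floor_le (sa * V ω)
      have k2 := Int.lt_floor_add_one (sa * V ω)
      have k3 := Int.floor_le (sa * V ω')
      have k4 := Int.lt_floor_add_one (sa * V ω')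
      rw [e1] at k1 k2
      rw [abs_le]
      constructor <;> linarith
    have g4 : |sa * n ω - sa * n ω'| ≤ ((C + 1 : ℕ) : ℝ) := by
      have k1 : sa * n ω - sa * n ω' = (sa * V ω - sa * V ω') -
          sa * ((V ω - V ω') - (n ω - n ω')) := by ring
      rw [k1]
      refine (abs_sub _ _).trans ?_
      rw [abs_mul, abs_of_nonneg hsa]
      push_cast
      linarith
    exact floor_sub_le g4
  have h5 := CH_chg hp (fun ω => ⌊sa * n ω⌋) (fun ω => ⌊sb * n ω⌋) (fun ω => ⌊sa * V ω⌋)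
    (fun ω => ⌊sb * V ω⌋) (fun ω => (x ω, t ω)) h3 h4
  linarith

/-- **The time is free** of the functions of the line. -/
theorem tm_free {Λ U : Type} {p : Ω → ℝ} (hp : IsLaw p) (t : Ω → T) (W : Ω → Λ) (a : Ω → U)
    (b : Ω → X) {h e : ℝ} (hW : h - e ≤ CH p t W) (hh : CH p t b ≤ h)
    (hd : ∀ ω ω', 0 < p ω → 0 < p ω' → W ω = W ω' → a ω = a ω' ∧ b ω = b ω') :
    CH p t b ≤ CH p t (fun ω => (a ω, b ω)) + e := by
  have h1 : CH p t W ≤ CH p t (fun ω => (a ω, b ω)) :=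
    CH_mono_cond hp.nonneg fun ω ω' hω hω' h => by
      obtain ⟨h1, h2⟩ := hd ω ω' hω hω' h
      exact Prod.ext h1 h2
  linarith

end Pool.ROW95
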