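import Pool.Agent.H42.NDC.Lit
import Pool.Agent.H95.ROW.Zero
import Pool.Agent.H95.ROW.Cnt
import Pool.Agent.H82.KSP.ENTJ
import Pool.Agent.H4.D2.Two

/-!
# The rows of the target at the time zero, on one event

`lev_near`: the constant of an own path and its value at the own time differ by a quantity which is known
given the code of the orders `≥ 1` and the time. `row_ev`: the number of values of the digits of the
constant of the own path of `c 3` in a block, given the near data `xg` and the higher digits, from the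
entropy of the digits of the own height on all large events.
-/

set_option autoImplicit false

namespace Pool.ROW95

open Finset Real MvPolynomial
open Pool.Agent.H49.Ent Pool.Agent.H32.Dense Pool.STK Pool.KA Pool.KSAT Pool.K2S Pool.PB Pool.GEN
open Pool.S6C Pool.RCD Pool.LA91 Pool.OWN68 Pool.CHT Pool.NDC42
open Pool.AVG71 (cod)
open Pool.V0F (cR mx_cR)
open Pool.GRD (LbP)
open Pool.PB.Trl (rt rt_mem t_rt)

variable {m J : ℕ}

/-- **The constant of the own path** of `c l` over the label `H · l` of the window `w`. -/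
noncomputable def lv (F : Fam m J) (c : ℕ → Fin m) (w : ℝ)
    (H : LnT F → ℕ → MvPolynomial (Option (Fin m)) ℝ) (l : ℕ) (ω : F.Ω) : ℝ :=
  (dv ⌊w * J⌋₊ (fun s (_ : Fin m) => H s l) (c l) (slam F ⌊w * J⌋₊ ω)).eval 0

/-- **The constant and the value at the own time.** -/
theorem lev_near (F : Fam m J) (c : ℕ → Fin m) {D : ℕ} {w : ℝ} (hwJ : ⌊w * J⌋₊ ≤ J)
    (H : LnT F → ℕ → MvPolynomial (Option (Fin m)) ℝ) (l : ℕ)
    (hdeg : ∀ s, (H s l).totalDegree ≤ D) {s : ℝ} {ω ω' : F.Ω} (hT : F.T ω = F.T ω')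
    (hc : pcC F c D w H l 1 s ω = pcC F c D w H l 1 s ω') :
    |(ojet F (c l) 0 (H (slam F ⌊w * J⌋₊ ω) l) ω - ojet F (c l) 0 (H (slam F ⌊w * J⌋₊ ω') l) ω') -
      (lv F c w H l ω - lv F c w H l ω')| ≤ (D + 1) / 2 ^ (s * J) := by
  obtain ⟨P, hP⟩ : ∃ P : F.Ω → Polynomial ℝ, P = fun o =>
      dv ⌊w * J⌋₊ (fun s (_ : Fin m) => H s l) (c l) (slam F ⌊w * J⌋₊ o) := ⟨_, rfl⟩
  have hPd : ∀ o, (P o).natDegree < D + 1 + 1 := by
    intro o
    rw [hP]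
    have := natDegree_dv ⌊w * J⌋₊ (K := D) (G := fun s (_ : Fin m) => H s l)
      (fun s _ => hdeg s) (c l) (slam F ⌊w * J⌋₊ o)
    exact Nat.lt_succ_of_le this
  have hσ : (0 : ℝ) < 2 ^ (s * J) := Real.rpow_pos_of_pos two_pos _
  have hrt : rt F ⌊w * J⌋₊ ω = rt F ⌊w * J⌋₊ ω' := by
    have h1 := Pool.AVG57.tw_of_T F (W := ⌊w * J⌋₊) hT
    rwa [Pool.AVG57.tw_rt F hwJ, Pool.AVG57.tw_rt F hwJ] at h1
  have hV : ∀ o, ojet F (c l) 0 (H (slam F ⌊w * J⌋₊ o) l) o = (P o).eval (rt F ⌊w * J⌋₊ o) := by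
    intro o
    rw [Pool.OWN54.ojet_zero, hP]
    exact (Pool.AVG57.dv_rt F hwJ o (c l) (fun s _ => H s l)).symm
  have hn : ∀ o, lv F c w H l o = (P o).eval 0 := by
    intro o
    rw [hP]
    rfl
  rw [hV, hV, hn, hn, ← hrt]
  obtain ⟨θ, hθ⟩ : ∃ θ, θ = rt F ⌊w * J⌋₊ ω := ⟨_, rfl⟩
  have hθ1 : |θ| ≤ 1 := by
    have h1 := rt_mem F ⌊w * J⌋₊ ω
    rw [hθ, abs_le]
    constructor <;> linarith [h1.1, h1.2]
  rw [← hθ]
  have hev : ∀ o, (P o).eval θ - (P o).eval 0 =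
      ∑ i ∈ range (D + 1), (P o).coeff (i + 1) * θ ^ (i + 1) := by
    intro o
    rw [Polynomial.eval_eq_sum_range' (hPd o), Finset.sum_range_succ', pow_zero, mul_one,
      ← Polynomial.coeff_zero_eq_eval_zero]
    ring
  have hkey : ∀ i ∈ range (D + 1), |(P ω).coeff (i + 1) - (P ω').coeff (i + 1)| ≤
      1 / 2 ^ (s * J) := by
    intro i hi
    have hi' : i + 1 < D + 1 + 1 := by
      have := mem_range.1 hi
      omega
    have h1 := congrFun hc ⟨i + 1, hi'⟩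
    unfold pcC cod at h1
    rw [if_pos (by show 1 ≤ i + 1; omega), if_pos (by show 1 ≤ i + 1; omega)] at h1
    have e1 : ∀ o, (dv ⌊w * J⌋₊ (fun s (_ : Fin m) => (H s) l) (c l)
        (slam F ⌊w * J⌋₊ o)).coeff (i + 1) = (P o).coeff (i + 1) := fun o => by rw [hP]
    have h2 : ⌊(2 : ℝ) ^ (s * J) * (P ω).coeff (i + 1)⌋ =
        ⌊(2 : ℝ) ^ (s * J) * (P ω').coeff (i + 1)⌋ := by
      rw [← e1, ← e1]
      exact h1
    exact Pool.AVG5.of_fl hσ h2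
  have h1 : ((P ω).eval θ - (P ω').eval θ) - ((P ω).eval 0 - (P ω').eval 0) =
      ∑ i ∈ range (D + 1), ((P ω).coeff (i + 1) - (P ω').coeff (i + 1)) * θ ^ (i + 1) := by
    have e2 : ((P ω).eval θ - (P ω').eval θ) - ((P ω).eval 0 - (P ω').eval 0) =
        ((P ω).eval θ - (P ω).eval 0) - ((P ω').eval θ - (P ω').eval 0) := by ring
    rw [e2, hev, hev, ← Finset.sum_sub_distrib]
    exact Finset.sum_congr rfl fun i _ => by ring
  rw [h1]
  refine (Finset.abs_sum_le_sum_abs _ _).trans ?_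
  refine (Finset.sum_le_sum (g := fun _ => 1 / (2 : ℝ) ^ (s * J)) fun i hi => ?_).trans
    (le_of_eq ?_)
  · rw [abs_mul, abs_pow]
    calc |(P ω).coeff (i + 1) - (P ω').coeff (i + 1)| * |θ| ^ (i + 1) ≤
        1 / 2 ^ (s * J) * 1 := by
          refine mul_le_mul (hkey i hi) (pow_le_one₀ (abs_nonneg _) hθ1) (by positivity)
            (by positivity)
      _ = 1 / 2 ^ (s * J) := mul_one _
  · rw [Finset.sum_const, card_range, nsmul_eq_mul]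
    push_cast
    ring

/-- The heights of `c 0, c 1, c 2` to `n l` digits. -/
noncomputable def hq3 (F : Fam m J) (c : ℕ → Fin m) (w : ℝ) (n : ℕ → ℝ)
    (H : LnT F → ℕ → MvPolynomial (Option (Fin m)) ℝ) (ω : F.Ω) (i j : ℕ) : ℤ :=
  if i < 3 ∧ j = 0 then hgC F c w H i (n i) ω else 0

/-- The time is full on a large event. -/
theorem tm_sub {F : Fam m J} {p : F.Ω → ℝ} (hp : IsLaw p) {w : ℕ} (hw : w ≤ J) {B : F.Ω → Prop}
    {c₀ e : ℝ} (hc : 0 < c₀) (he : 0 ≤ e) (hB : c₀ ≤ Pe p B)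
    (h : ((J - w : ℕ) : ℝ) * Real.log 2 - e ≤ CH p F.T (slam F w)) :
    ((J - w : ℕ) : ℝ) * Real.log 2 - (e + Real.log 2) / c₀ ≤
      CH (Pool.Agent.H49.Ent.cond p B True) F.T (slam F w) := by
  have hl2 : 0 ≤ Real.log 2 := Real.log_nonneg one_le_two
  have hB0 : 0 < Pe p B := lt_of_lt_of_le hc hB
  have hup : ∀ q : F.Ω → ℝ, IsLaw q → CH q F.T (slam F w) ≤ ((J - w : ℕ) : ℝ) * Real.log 2 := by
    intro q hq
    have h1 := Pool.Agent.H25.M5.CH_T1_le hq hw le_rfl (slam F w) (fun ω ω' _ _ e =>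
      (Prod.ext_iff.mp (Prod.ext_iff.mp e).2).2)
    rwa [show F.T1 J = F.T from funext (Pool.Agent.H25.M5.T1_J F)] at h1
  have h1 := Pool.KS3.CH_ev_ge hp B F.T (slam F w) (((J - w : ℕ) : ℝ) * Real.log 2)
    (fun h0 => hup _ ⟨cond_nonneg hp.nonneg B False, sum_cond p B h0⟩)
  obtain ⟨x, hx⟩ : ∃ x, x = CH (Pool.Agent.H49.Ent.cond p B True) F.T (slam F w) := ⟨_, rfl⟩
  obtain ⟨P, hP⟩ : ∃ P, P = law p B True := ⟨_, rfl⟩
  obtain ⟨M, hM⟩ : ∃ M, M = ((J - w : ℕ) : ℝ) * Real.log 2 := ⟨_, rfl⟩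
  have hPc : c₀ ≤ P := by rw [hP]; exact hB
  rw [← hx, ← hP, ← hM] at h1
  rw [← hM] at h
  rw [← hM, ← hx]
  have h2 : P * M - (e + Real.log 2) ≤ P * x := by nlinarith
  by_contra hcon
  push Not at hcon
  have hP0 : 0 < P := lt_of_lt_of_le hc hPc
  have h3 : P * x < P * (M - (e + Real.log 2) / c₀) := mul_lt_mul_of_pos_left hcon hP0
  have h4 : c₀ * ((e + Real.log 2) / c₀) = e + Real.log 2 := mul_div_cancel₀ _ hc.ne'
  have h5 : c₀ * ((e + Real.log 2) / c₀) ≤ P * ((e + Real.log 2) / c₀) :=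
    mul_le_mul_of_nonneg_right hPc (by positivity)
  nlinarith

/-- Closed functions of the window are determined by the canonical record. -/
theorem cR_det {F : Fam m J} {A : F.Ω → Prop} {w : ℝ} {V : Type} {z : F.Ω → V}
    (hz : Cl2 (ptr F J) (vg w J F) A z) {p : F.Ω → ℝ} : Det p (cR F A w) z := by
  intro ω ν hω hν e
  have h1 := congrFun e ⟨fun ν' => z ν' = z ω, hz.comp fun v => v = z ω⟩
  have h2 : (z ω = z ω) = (z ν = z ω) := h1
  exact (h2.mp rfl).symm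

/-- The near data are a function of the line, on the event. -/
theorem xg_lin {F : Fam m J} {A : F.Ω → Prop} (c : ℕ → Fin m) (D : ℕ) {w : ℝ} (n : ℕ → ℝ)
    (nt : ℝ) (H : LnT F → ℕ → MvPolynomial (Option (Fin m)) ℝ) {ω ω' : F.Ω} (hA : A ω)
    (hA' : A ω') (h : slam F ⌊w * J⌋₊ ω = slam F ⌊w * J⌋₊ ω') :
    xg F A c D w n nt H ω = xg F A c D w n nt H ω' := by
  have h1 : cR F A w ω = cR F A w ω' := by
    funext D'
    obtain ⟨ψ, hψ⟩ := D'.2.2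
    show D'.1 ω = D'.1 ω'
    rw [hψ ω hA, hψ ω' hA']
    show ψ (slam F ⌊w * J⌋₊ ω) = ψ (slam F ⌊w * J⌋₊ ω')
    rw [h]
  have h2 : F.Z ω = F.Z ω' := (Prod.ext_iff.mp (Prod.ext_iff.mp h).2).1
  have h3 : ∀ l j₀ s, pcC F c D w H l j₀ s ω = pcC F c D w H l j₀ s ω' := by
    intro l j₀ s
    funext a
    unfold pcC cod
    rw [h]
  unfold xg xn x0
  rw [h1, h2, h3, h3, h3, h3]
  simp only [h3]

/-- Division of a floor. -/
theorem fdiv (x : ℝ) {X a k : ℕ} (h : X = a + k) :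
    ⌊(2 : ℝ) ^ X * x⌋ / 2 ^ a = ⌊(2 : ℝ) ^ k * x⌋ := by
  have h1 := Int.floor_div_natCast ((2 : ℝ) ^ X * x) (2 ^ a)
  have e1 : (2 : ℝ) ^ X * x / ((2 ^ a : ℕ) : ℝ) = 2 ^ k * x := by
    rw [h, pow_add]
    push_cast
    field_simp
  rw [e1] at h1
  push_cast at h1
  exact h1.symm

/-- Digits of a number from near digits. -/
theorem fl_fl {Ω T : Type} [Fintype Ω] {p : Ω → ℝ} (hp : IsLaw p) (x : Ω → ℝ) (Y : Ω → T)
    {s s' : ℝ} (hs : 0 ≤ s) {K : ℝ} (hK : 0 ≤ K) (hss : s' ≤ K * s) (hs' : 0 ≤ s')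
    (hY : ∀ ω ω', 0 < p ω → 0 < p ω' → Y ω = Y ω' → ⌊s * x ω⌋ = ⌊s * x ω'⌋) :
    CH p (fun ω => ⌊s' * x ω⌋) Y ≤ Real.log (2 * (K + 1) + 1) := by
  refine Pool.AVG71.CH_pair_int hp _ Y (by linarith) fun ω ω' hω hω' e => ?_
  refine Pool.AVG57.floor_near' ?_
  have h1 := hY ω ω' hω hω' e
  have k1 := Int.floor_le (s * x ω)
  have k2 := Int.lt_floor_add_one (s * x ω)
  have k3 := Int.floor_le (s * x ω')
  have k4 := Int.lt_floor_add_one (s * x ω')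
  rw [h1] at k1 k2
  have h2 : s * |x ω - x ω'| ≤ 1 := by
    have h3 : |s * (x ω - x ω')| ≤ 1 := by
      rw [mul_sub, abs_le]
      constructor <;> linarith
    rwa [abs_mul, abs_of_nonneg hs] at h3
  rw [← mul_sub, abs_mul, abs_of_nonneg hs']
  calc s' * |x ω - x ω'| ≤ K * s * |x ω - x ω'| :=
        mul_le_mul_of_nonneg_right hss (abs_nonneg _)
    _ = K * (s * |x ω - x ω'|) := by ring
    _ ≤ K * 1 := mul_le_mul_of_nonneg_left h2 hK
    _ = K := mul_one _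

/-- **The digits of the level**, from the row at the own time. -/
theorem row_law {Ω X T U W : Type} [Fintype Ω] {q : Ω → ℝ} (hq : IsLaw q) (n V : Ω → ℝ)
    (x : Ω → X) (t : Ω → T) (u : Ω → U) (r : Ω → W) {sa sb s₁ s₂ : ℝ} {C : ℕ} {e₁ e₂ R : ℝ}
    (hsb : 0 ≤ sb) (hab : sb ≤ sa) (h2 : sa ≤ s₂) (h1 : s₁ ≤ 2 * sb) (h10 : 0 ≤ s₁)
    (hV : ∀ ω ω', 0 < q ω → 0 < q ω' → x ω = x ω' → t ω = t ω' →
      sa * |(V ω - V ω') - (n ω - n ω')| ≤ C)
    (hr : ∀ ω ω', 0 < q ω → 0 < q ω' → x ω = x ω' → t ω = t ω' → r ω = r ω')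
    (ht : CH q t (fun ω => (⌊sb * n ω⌋, x ω)) ≤
      CH q t (fun ω => (⌊sa * n ω⌋, (⌊sb * n ω⌋, x ω))) + e₁)
    (hu : CH q u (fun ω => (x ω, t ω)) ≤ e₂)
    (hR : CH q (fun ω => ⌊s₂ * V ω⌋) (fun ω => (⌊s₁ * V ω⌋, (u ω, r ω))) ≤ R) :
    CH q (fun ω => ⌊sa * n ω⌋) (fun ω => (x ω, ⌊sb * n ω⌋)) ≤ R + e₁ + e₂ + Real.log 7 +
      Real.log 5 + 2 * Real.log (2 * ((C + 2 : ℕ) : ℝ) + 1) := by
  have q0 := hq.nonneg
  have hsa : 0 ≤ sa := hsb.trans hab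
  have r1 := row_zero hq n V x t hsb hab hV ht
  have r2 := CH_chg hq (fun ω => ⌊sa * V ω⌋) (fun ω => ⌊sb * V ω⌋)
    (fun ω => ⌊s₂ * V ω⌋) (fun ω => ⌊s₁ * V ω⌋)
    (fun ω => (x ω, t ω)) (c₁ := Real.log 7) (c₂ := Real.log 5) (by
      refine (fl_fl hq V _ hsb (K := 2) (by norm_num) h1 h10
        fun ω ω' _ _ h => (Prod.ext_iff.1 h).1).trans (le_of_eq ?_)
      norm_num) (by
      refine (fl_fl hq V _ (s := s₂) (hsa.trans h2) (K := 1) (by norm_num)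
        (by rw [one_mul]; exact h2) hsa
        fun ω ω' _ _ h => (Prod.ext_iff.1 h).1).trans (le_of_eq ?_)
      norm_num)
  have a1 := CH_le_add q0 (fun ω => ⌊s₂ * V ω⌋) u (fun ω => (⌊s₁ * V ω⌋, (x ω, t ω)))
  have a2 : CH q u (fun ω => (⌊s₁ * V ω⌋, (x ω, t ω))) ≤ CH q u (fun ω => (x ω, t ω)) :=
    CH_mono_cond q0 fun ω ω' _ _ h => (Prod.ext_iff.1 h).2
  have a3 : CH q (fun ω => ⌊s₂ * V ω⌋) (fun ω => (u ω, (⌊s₁ * V ω⌋, (x ω, t ω)))) ≤
      CH q (fun ω => ⌊s₂ * V ω⌋) (fun ω => (⌊s₁ * V ω⌋, (u ω, r ω))) := by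
    refine CH_mono_cond q0 fun ω ω' hω hω' h => ?_
    simp only [Prod.mk.injEq] at h ⊢
    exact ⟨h.2.1, h.1, hr ω ω' hω hω' h.2.2.1 h.2.2.2⟩
  have e1 : CH q (fun ω => ⌊sa * n ω⌋) (fun ω => (x ω, ⌊sb * n ω⌋)) =
      CH q (fun ω => ⌊sa * n ω⌋) (fun ω => (⌊sb * n ω⌋, x ω)) :=
    le_antisymm (CH_mono_cond q0 fun ω ω' _ _ h => Prod.ext (Prod.ext_iff.1 h).2
      (Prod.ext_iff.1 h).1) (CH_mono_cond q0 fun ω ω' _ _ h => Prod.ext (Prod.ext_iff.1 h).2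
      (Prod.ext_iff.1 h).1)
  rw [e1]
  linarith

/-! ### The parts of the near data -/

theorem xg_xn {F : Fam m J} {A : F.Ω → Prop} {c : ℕ → Fin m} {D : ℕ} {w : ℝ} {n : ℕ → ℝ}
    {nt : ℝ} {H : LnT F → ℕ → MvPolynomial (Option (Fin m)) ℝ} {ω ω' : F.Ω}
    (h : xg F A c D w n nt H ω = xg F A c D w n nt H ω') :
    xn F A c D w n nt H ω = xn F A c D w n nt H ω' ∧
      pcC F c D w H 3 1 (n 3) ω = pcC F c D w H 3 1 (n 3) ω' := by
  unfold xg at h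
  exact Prod.mk.inj h

theorem xn_x0 {F : Fam m J} {A : F.Ω → Prop} {c : ℕ → Fin m} {D : ℕ} {w : ℝ} {n : ℕ → ℝ}
    {nt : ℝ} {H : LnT F → ℕ → MvPolynomial (Option (Fin m)) ℝ} {ω ω' : F.Ω}
    (h : xn F A c D w n nt H ω = xn F A c D w n nt H ω') :
    x0 F A c D w n nt H ω = x0 F A c D w n nt H ω' := by
  unfold xn at h
  exact (Prod.mk.inj h).1

theorem x0_cR {F : Fam m J} {A : F.Ω → Prop} {c : ℕ → Fin m} {D : ℕ} {w : ℝ} {n : ℕ → ℝ}
    {nt : ℝ} {H : LnT F → ℕ → MvPolynomial (Option (Fin m)) ℝ} {ω ω' : F.Ω}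
    (h : x0 F A c D w n nt H ω = x0 F A c D w n nt H ω') :
    cR F A w ω = cR F A w ω' ∧ F.Z ω = F.Z ω' := by
  unfold x0 at h
  exact Prod.mk.inj (Prod.mk.inj h).1

end Pool.ROW95
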