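import Pool.Agent.H95.ROW.Ev

/-!
# The rows of the target at the time zero, on one event

`row_ev`: the number of values of the digits of the constant of the own path of `c 3` in a block, given
the near data `xg` and the higher digits, from the entropy of the digits of the own height on all large
events.
-/

set_option autoImplicit false

namespace Pool.ROW95

open Finset Real MvPolynomial
open Pool.Agent.H49.Ent Pool.Agent.H32.Dense Pool.STK Pool.KA Pool.KSAT Pool.K2S Pool.PB Pool.GEN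
open Pool.S6C Pool.RCD Pool.LA91 Pool.OWN68 Pool.CHT Pool.NDC42
open Pool.V0F (cR mx_cR)

variable {m J : ℕ}

/-- **The rows at the time zero, on one event.** -/
theorem row_ev {F : Fam m J} {A : F.Ω → Prop} (hA : 0 < Pe F.p A) {c : ℕ → Fin m} {D : ℕ}
    {w : ℝ} (hw1 : w ≤ 1) {n : ℕ → ℝ} {nt : ℝ}
    {H : LnT F → ℕ → MvPolynomial (Option (Fin m)) ℝ} (hdeg : ∀ s, (H s 3).totalDegree ≤ D)
    {P₁ P₂ e R c₀ : ℝ} (hP1 : 0 ≤ P₁) (hP : P₁ ≤ P₂) (hPn : P₂ ≤ n 3) (hc : 0 < c₀)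
    (he : 0 ≤ e)
    (ht : CH (Pool.Agent.H49.Ent.cond F.p A True)
      (fun ω => ((fun l : Fin 2 => hgC F c w H l (n l) ω), hgC F c w H 2 nt ω))
      (fun ω => (F.T ω, x0 F A c D w n nt H ω)) ≤ e * J)
    (hn : CH (Pool.Agent.H49.Ent.cond F.p A True) (hgC F c w H 2 (n 2))
      (fun ω => (F.T ω, xn F A c D w n nt H ω)) ≤ e * J)
    (htm : ((1 - w) * Real.log 2 - e) * J ≤
      CH (Pool.Agent.H49.Ent.cond F.p A True) F.T (slam F ⌊w * J⌋₊))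
    (hR : ∀ B' : F.Ω → Prop, Sub B' A → c₀ * Pe F.p A ≤ Pe F.p B' →
      CH (Pool.Agent.H49.Ent.cond F.p B' True) (hgC F c w H 3 P₂)
        (fun ω => (hgC F c w H 3 P₁ ω, (hq3 F c w n H ω, (cR F A w ω, F.W ω)))) ≤ R)
    {Xd a b : ℕ} (ha : Xd = a + ⌊P₂ * J⌋₊) (hb : Xd = b + ⌊P₁ * J⌋₊) :
    ∃ Sf : _ × ℤ → Finset ℤ, (∀ y, ((Sf y).card : ℝ) ≤ Real.exp (R +
        (3 * (e * J) + 2 * Real.log 2) / c₀ + Real.log 7 + Real.log 5 +
        2 * Real.log (2 * ((D + 3 : ℕ) : ℝ) + 1) + Real.log (1 / c₀) + 1)) ∧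
      Pe (Pool.Agent.H49.Ent.cond F.p A True) (fun ω =>
        ¬ ⌊(2 : ℝ) ^ Xd * lv F c w H 3 ω⌋ / 2 ^ a ∈
          Sf (xg F A c D w n nt H ω, ⌊(2 : ℝ) ^ Xd * lv F c w H 3 ω⌋ / 2 ^ b)) < c₀ := by
  classical
  have hJ : (0 : ℝ) ≤ J := Nat.cast_nonneg J
  have hwJ : ⌊w * (J : ℝ)⌋₊ ≤ J := floor_le hw1 J
  have hl2 : 0 ≤ Real.log 2 := Real.log_nonneg one_le_two
  obtain ⟨p, hp⟩ : ∃ p, p = Pool.Agent.H49.Ent.cond F.p A True := ⟨_, rfl⟩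
  have hpl : IsLaw p := by rw [hp]; exact isLaw_cond F.isLaw hA
  rw [← hp] at ht hn htm ⊢
  have p0 := hpl.nonneg
  -- the functions
  obtain ⟨n₃, hn₃⟩ : ∃ n₃ : F.Ω → ℝ, n₃ = lv F c w H 3 := ⟨_, rfl⟩
  obtain ⟨V, hV⟩ : ∃ V : F.Ω → ℝ, V = fun ω => ojet F (c 3) 0 (H (slam F ⌊w * J⌋₊ ω) 3) ω :=
    ⟨_, rfl⟩
  have hfd : ∀ ω, ⌊(2 : ℝ) ^ Xd * lv F c w H 3 ω⌋ / 2 ^ a =
      ⌊(2 : ℝ) ^ ⌊P₂ * (J : ℝ)⌋₊ * n₃ ω⌋ := fun ω => by rw [hn₃]; exact fdiv _ ha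
  have hfb : ∀ ω, ⌊(2 : ℝ) ^ Xd * lv F c w H 3 ω⌋ / 2 ^ b =
      ⌊(2 : ℝ) ^ ⌊P₁ * (J : ℝ)⌋₊ * n₃ ω⌋ := fun ω => by rw [hn₃]; exact fdiv _ hb
  simp only [hfd, hfb]
  -- the numbers
  obtain ⟨sa, hsa⟩ : ∃ sa : ℝ, sa = 2 ^ ⌊P₂ * (J : ℝ)⌋₊ := ⟨_, rfl⟩
  obtain ⟨sb, hsb⟩ : ∃ sb : ℝ, sb = 2 ^ ⌊P₁ * (J : ℝ)⌋₊ := ⟨_, rfl⟩
  have hsb0 : 0 < sb := by rw [hsb]; positivity
  have hsa0 : 0 < sa := by rw [hsa]; positivity
  have hab : sb ≤ sa := by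
    rw [hsa, hsb]
    exact pow_le_pow_right₀ one_le_two (Nat.floor_le_floor (mul_le_mul_of_nonneg_right hP hJ))
  have hsaP : sa ≤ 2 ^ (P₂ * J) := by
    rw [hsa, ← Real.rpow_natCast]
    exact Real.rpow_le_rpow_of_exponent_le one_le_two
      (Nat.floor_le (mul_nonneg (hP1.trans hP) hJ))
  have hsbP : 2 ^ (P₁ * J) ≤ 2 * sb := by
    rw [hsb, ← pow_succ', ← Real.rpow_natCast]
    refine Real.rpow_le_rpow_of_exponent_le one_le_two ?_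
    push_cast
    exact (Nat.lt_floor_add_one _).le
  rw [← hsa, ← hsb]
  refine cnt_ent hpl (fun ω => ⌊sa * n₃ ω⌋) (fun ω => (xg F A c D w n nt H ω, ⌊sb * n₃ ω⌋))
    (c := c₀) (h := R + (3 * (e * J) + 2 * Real.log 2) / c₀ + Real.log 7 + Real.log 5 +
        2 * Real.log (2 * ((D + 3 : ℕ) : ℝ) + 1)) hc ?_
  intro B hB
  have hB0 : 0 < Pe p B := lt_of_lt_of_le hc hB
  obtain ⟨q, hq⟩ : ∃ q, q = Pool.Agent.H49.Ent.cond p B True := ⟨_, rfl⟩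
  have hql : IsLaw q := by rw [hq]; exact isLaw_cond hpl hB0
  have q0 := hql.nonneg
  have hqA : ∀ ω, 0 < q ω → A ω := fun ω hω => by
    rw [hq] at hω
    have h1 := ((cond_pos_iff p0 B True ω).1 hω).1
    rw [hp] at h1
    exact of_cond_pos h1
  have hqe : q = Pool.Agent.H49.Ent.cond F.p (fun ω => A ω ∧ B ω) True := by
    rw [hq, hp]
    exact Piece.cond_inter hA.ne'
  -- the row at the own time
  have hRq : CH q (hgC F c w H 3 P₂)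
      (fun ω => (hgC F c w H 3 P₁ ω, (hq3 F c w n H ω, (cR F A w ω, F.W ω)))) ≤ R := by
    rw [hqe]
    refine hR _ (fun ω h => h.1) ?_
    have h1 := Pe_cond (p := F.p) (A := A) B
    rw [← hp] at h1
    rw [h1, le_div_iff₀ hA] at hB
    exact hB
  -- the time
  have htm' : ((J - ⌊w * (J : ℝ)⌋₊ : ℕ) : ℝ) * Real.log 2 - (e * J + Real.log 2) ≤
      CH p F.T (slam F ⌊w * J⌋₊) := by
    refine le_trans ?_ htm
    rw [Nat.cast_sub hwJ]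
    have h1 := (Nat.lt_floor_add_one (w * (J : ℝ))).le
    nlinarith
  have htq := tm_sub hpl hwJ hc (by positivity) hB htm'
  have h4 : CH q (fun ω => ((fun l : Fin 2 => hgC F c w H l (n l) ω), hgC F c w H 2 nt ω))
      (fun ω => (F.T ω, x0 F A c D w n nt H ω)) ≤ e * J / c₀ := by
    rw [hq]
    exact Pool.D2P.CH_ev_div hpl _ _ B hc hB ht
  have h5 : CH q (hgC F c w H 2 (n 2)) (fun ω => (F.T ω, xn F A c D w n nt H ω)) ≤
      e * J / c₀ := by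
    rw [hq]
    exact Pool.D2P.CH_ev_div hpl _ _ B hc hB hn
  rw [← hq] at htq ⊢
  -- the near data
  obtain ⟨X, hX⟩ : ∃ X, X = xg F A c D w n nt H := ⟨_, rfl⟩
  have hX0 : ∀ ω ω', X ω = X ω' → x0 F A c D w n nt H ω = x0 F A c D w n nt H ω' ∧
      xn F A c D w n nt H ω = xn F A c D w n nt H ω' ∧
      pcC F c D w H 3 1 (n 3) ω = pcC F c D w H 3 1 (n 3) ω' := by
    intro ω ω' h
    rw [hX] at h
    have h1 := xg_xn h
    exact ⟨xn_x0 h1.1, h1.1, h1.2⟩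
  have hXl : ∀ ω ω', 0 < q ω → 0 < q ω' → slam F ⌊w * J⌋₊ ω = slam F ⌊w * J⌋₊ ω' →
      X ω = X ω' := fun ω ω' hω hω' h => by
    rw [hX]
    exact xg_lin c D n nt H (hqA ω hω) (hqA ω' hω') h
  have hnl : ∀ ω ω', slam F ⌊w * J⌋₊ ω = slam F ⌊w * J⌋₊ ω' → n₃ ω = n₃ ω' := by
    intro ω ω' h
    rw [hn₃]
    unfold lv
    rw [h]
  have hVn : ∀ ω ω', X ω = X ω' → F.T ω = F.T ω' →
      sa * |(V ω - V ω') - (n₃ ω - n₃ ω')| ≤ ((D + 1 : ℕ) : ℝ) := by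
    intro ω ω' hx hT
    have h1 := lev_near F c hwJ H 3 hdeg (s := n 3) hT (hX0 ω ω' hx).2.2
    have h2 : sa ≤ 2 ^ (n 3 * J) := hsaP.trans (Real.rpow_le_rpow_of_exponent_le one_le_two
      (mul_le_mul_of_nonneg_right hPn hJ))
    have h3 : (0 : ℝ) < 2 ^ (n 3 * J) := Real.rpow_pos_of_pos two_pos _
    rw [hV, hn₃]
    refine (mul_le_mul_of_nonneg_left h1 hsa0.le).trans ?_
    rw [← mul_div_assoc, div_le_iff₀ h3]
    push_cast
    have h4 : (0 : ℝ) ≤ (D : ℝ) + 1 := by positivity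
    nlinarith
  rw [← hX]
  have hRV : CH q (fun ω => ⌊(2 : ℝ) ^ (P₂ * J) * V ω⌋)
      (fun ω => (⌊(2 : ℝ) ^ (P₁ * J) * V ω⌋, (hq3 F c w n H ω, (cR F A w ω, F.W ω)))) ≤ R := by
    rw [hV]
    exact hRq
  -- the heights
  have hu : CH q (hq3 F c w n H) (fun ω => (X ω, F.T ω)) ≤ e * J / c₀ + e * J / c₀ := by
    have h1 : CH q (hq3 F c w n H) (fun ω => (X ω, F.T ω)) ≤
        CH q (fun ω => (((fun l : Fin 2 => hgC F c w H l (n l) ω), hgC F c w H 2 nt ω),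
          hgC F c w H 2 (n 2) ω)) (fun ω => (X ω, F.T ω)) := by
      refine CH_mono_left q0 fun ω ω' _ _ h => ?_
      have h2 := Prod.mk.inj (Prod.mk.inj h).1
      have h3 := (Prod.mk.inj h2.1).1
      funext i j
      unfold hq3
      by_cases hij : i < 3 ∧ j = 0
      · rw [if_pos hij, if_pos hij]
        obtain ⟨hi, -⟩ := hij
        interval_cases i
        · exact congrFun h3 0
        · exact congrFun h3 1
        · exact h2.2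
      · rw [if_neg hij, if_neg hij]
    refine h1.trans ((CH_subadd q0 _ _ _).trans (add_le_add ?_ ?_))
    · refine le_trans (CH_mono_cond q0 fun ω ω' _ _ h => ?_) h4
      have h6 := Prod.mk.inj h
      rw [h6.2, (hX0 ω ω' h6.1).1]
    · refine le_trans (CH_mono_cond q0 fun ω ω' _ _ h => ?_) h5
      have h6 := Prod.mk.inj h
      rw [h6.2, (hX0 ω ω' h6.1).2.1]
  -- the time and the digits
  have hT : CH q F.T (fun ω => (⌊sb * n₃ ω⌋, X ω)) ≤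
      CH q F.T (fun ω => (⌊sa * n₃ ω⌋, (⌊sb * n₃ ω⌋, X ω))) +
        (e * J + Real.log 2 + Real.log 2) / c₀ := by
    have h1 : CH q F.T (fun ω => (⌊sb * n₃ ω⌋, X ω)) ≤
        ((J - ⌊w * (J : ℝ)⌋₊ : ℕ) : ℝ) * Real.log 2 := by
      have h2 := Pool.Agent.H25.M5.CH_T1_le hql hwJ le_rfl
        (fun ω => (⌊sb * n₃ ω⌋, X ω)) (fun ω ω' hω hω' h => by
          have h3 := (x0_cR (hX0 ω ω' (Prod.mk.inj h).2).1).1
          have hcl : Cl2 (ptr F J) (vg w J F) A (F.T1 ⌊w * J⌋₊) :=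
            ⟨⟨fun y => y.2.1 / 2 ^ (J - ⌊w * (J : ℝ)⌋₊), fun ω _ => rfl⟩,
              fun s => s.2.2, fun ω _ => rfl⟩
          exact cR_det hcl ω ω' hω hω' h3)
      rwa [show F.T1 J = F.T from funext (Pool.Agent.H25.M5.T1_J F)] at h2
    refine tm_free hql F.T (slam F ⌊w * J⌋₊) (fun ω => ⌊sa * n₃ ω⌋)
      (fun ω => (⌊sb * n₃ ω⌋, X ω)) htq h1 ?_
    intro ω ω' hω hω' h
    have h2 := hnl ω ω' h
    have h3 := hXl ω ω' hω hω' h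
    exact ⟨by simp only [h2], by simp only [h2, h3]⟩
  have key := row_law hql n₃ V X F.T (hq3 F c w n H) (fun ω => (cR F A w ω, F.W ω))
    (sa := sa) (sb := sb) (s₁ := 2 ^ (P₁ * J)) (s₂ := 2 ^ (P₂ * J)) (C := D + 1) hsb0.le hab
    hsaP hsbP (by positivity) (fun ω ω' _ _ => hVn ω ω') (fun ω ω' _ _ hx hT' => by
      have h1 := x0_cR (hX0 ω ω' hx).1
      have h2 : F.W ω = F.W ω' := Prod.ext hT' h1.2
      rw [h1.1, h2]) hT hu hRV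
  refine key.trans (le_of_eq ?_)
  have e2 : ((D + 1 + 2 : ℕ) : ℝ) = ((D + 3 : ℕ) : ℝ) := rfl
  rw [e2]
  ring

end Pool.ROW95
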